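import Pool.Agent.H71.O2.K1

set_option autoImplicit false

/-!
Commutators in an automorphic loop (helper77's N3 and N4): for `s = x \ (T_u x)` the set of all `v`
with `L_v L_s = L_(v s)` is a subloop and contains `u` and `x`.
-/

namespace ALoop

open Equiv

variable {Q : Type*} {G : Subgroup (Perm Q)} {L : Q → Perm Q} {J : Perm Q} {e : Q}

/-- the left translation by `x` at the base point `p` -/
def laa (L : Q → Perm Q) (p x : Q) : Perm Q := L p * L ((L p)⁻¹ x) * (L p)⁻¹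

/-- `p ↦ x p⁻¹ y` -/
def Mh (L : Q → Perm Q) (J : Perm Q) (x y : Q) : Perm Q := L y * (L ((L y)⁻¹ x) * J) * (L y)⁻¹

/-- `L_v L_s = L_(v s)` -/
def Nsp (L : Q → Perm Q) (s v : Q) : Prop := L v * L s = L (L v s)

namespace AL0

theorem tri (h : AL0 G L J e) {g : Perm Q} (hg : g ∈ G) (p : Q) :
    ∃ k ∈ G, k e = e ∧ g * L p = L (g p) * k ∧ ∀ x, k ((L p)⁻¹ x) = (L (g p))⁻¹ (g x) := by
  refine ⟨(L (g p))⁻¹ * g * L p, G.mul_mem (G.mul_mem (G.inv_mem (h.memL _)) hg) (h.memL _),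
    ?_, by group, fun x => ?_⟩
  · rw [Perm.mul_apply, Perm.mul_apply, h.Le, Perm.inv_eq_iff_eq, h.Le]
  · rw [Perm.mul_apply, Perm.mul_apply, apply_inv']

theorem laa_conj (h : AL0 G L J e) {g : Perm Q} (hg : g ∈ G) (p x : Q) :
    g * laa L p x * g⁻¹ = laa L (g p) (g x) := by
  obtain ⟨k, hk, hke, h1, h2⟩ := h.tri hg p
  have h3 := h.equi k hk hke ((L p)⁻¹ x)
  rw [h2] at h3
  have h4 : g = L (g p) * k * (L p)⁻¹ := by rw [← h1]; group
  unfold laa
  rw [← h3]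
  calc g * (L p * L ((L p)⁻¹ x) * (L p)⁻¹) * g⁻¹ =
      (g * L p) * L ((L p)⁻¹ x) * (g * L p)⁻¹ := by group
    _ = (L (g p) * k) * L ((L p)⁻¹ x) * (L (g p) * k)⁻¹ := by rw [h1]
    _ = L (g p) * (k * L ((L p)⁻¹ x) * k⁻¹) * (L (g p))⁻¹ := by group

theorem Mh_conj (h : AL0 G L J e) {g : Perm Q} (hg : g ∈ G) (x y : Q) :
    g * Mh L J x y * g⁻¹ = Mh L J (g x) (g y) := by
  obtain ⟨k, hk, hke, h1, h2⟩ := h.tri hg y
  have h3 := h.equi k hk hke ((L y)⁻¹ x)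
  have h5 := h.comJ k hk hke
  rw [h2] at h3
  unfold Mh
  rw [← h3]
  calc g * (L y * (L ((L y)⁻¹ x) * J) * (L y)⁻¹) * g⁻¹ =
      (g * L y) * L ((L y)⁻¹ x) * J * (g * L y)⁻¹ := by group
    _ = (L (g y) * k) * L ((L y)⁻¹ x) * J * (L (g y) * k)⁻¹ := by rw [h1]
    _ = L (g y) * k * L ((L y)⁻¹ x) * k⁻¹ * (k * J) * k⁻¹ * (L (g y))⁻¹ := by group
    _ = L (g y) * k * L ((L y)⁻¹ x) * k⁻¹ * (J * k) * k⁻¹ * (L (g y))⁻¹ := by rw [h5]
    _ = L (g y) * (k * L ((L y)⁻¹ x) * k⁻¹ * J) * (L (g y))⁻¹ := by group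

theorem flex' (h : AL0 G L J e) (y z : Q) : L y (L z y) = L (L y z) y := by
  have h1 := congrArg (fun f : Perm Q => f z) (h.flex y)
  simp only [Perm.mul_apply] at h1
  rw [h.Rt_app, h.Rt_app] at h1
  exact h1

theorem Mh_e (h : AL0 G L J e) (x y : Q) : Mh L J x y e = L x y := by
  unfold Mh
  simp only [Perm.mul_apply]
  rw [h.L_inv_e, h.JJ, h.flex', apply_inv']

/-- `M_(x,y) p = la(p,x) y` -/
theorem Mh_app (h : AL0 G L J e) (x y p : Q) : Mh L J x y p = laa L p x y := by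
  have h1 := h.Mh_conj (G.inv_mem (h.memL p)) x y
  rw [inv_inv] at h1
  have h2 := h.Mh_e ((L p)⁻¹ x) ((L p)⁻¹ y)
  rw [← h1] at h2
  simp only [Perm.mul_apply] at h2
  rw [h.Le] at h2
  unfold laa
  simp only [Perm.mul_apply]
  rw [← h2, apply_inv']

theorem Mh_J (h : AL0 G L J e) (x y : Q) : Mh L J x y * J ∈ G := by
  unfold Mh
  have h1 : L y * (L ((L y)⁻¹ x) * J) * (L y)⁻¹ * J =
      L y * L ((L y)⁻¹ x) * (J * (L y)⁻¹ * J) := by group
  rw [h1]
  exact G.mul_mem (G.mul_mem (h.memL _) (h.memL _)) (h.JG _ (G.inv_mem (h.memL _)))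

theorem laa_e (h : AL0 G L J e) (x : Q) : laa L e x = L x := by
  have h1 : L e = 1 := by
    ext y
    have h2 := h.Rt_app y e
    rw [h.Rt_e] at h2
    rw [← h2, Perm.one_apply]
  unfold laa
  rw [h1]
  simp

theorem laa_self (h : AL0 G L J e) (x : Q) : laa L x x = 1 := by
  have h1 : L e = 1 := by
    ext y
    have h2 := h.Rt_app y e
    rw [h.Rt_e] at h2
    rw [← h2, Perm.one_apply]
  have h2 : (L x)⁻¹ x = e := by rw [Perm.inv_eq_iff_eq, h.Le]
  unfold laa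
  rw [h2, h1]; group

/-- an inner mapping `k` fixing `u` which commutes with all inner mappings fixing `u` -/
theorem laa_k (h : AL0 G L J e) {u : Q} {k : Perm Q} (hk : k ∈ G) (hke : k e = e) (hku : k u = u)
    (hkc : ∀ g ∈ G, g e = e → g u = u → k * g = g * k) (x : Q) :
    laa L u (k x) = L (k x) * (L x)⁻¹ * laa L u x := by
  have ha : ∀ y, (L (L u y))⁻¹ * L u * L y ∈ G ∧ ((L (L u y))⁻¹ * L u * L y) e = e ∧
      ((L (L u y))⁻¹ * L u * L y) u = u := by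
    intro y
    refine ⟨G.mul_mem (G.mul_mem (G.inv_mem (h.memL _)) (h.memL _)) (h.memL _), ?_, ?_⟩
    · simp only [Perm.mul_apply]
      rw [h.Le, Perm.inv_eq_iff_eq, h.Le]
    · simp only [Perm.mul_apply]
      rw [h.flex', Perm.inv_eq_iff_eq]
  obtain ⟨y, hy⟩ : ∃ y, y = (L u)⁻¹ x := ⟨_, rfl⟩
  have huy : L u y = x := by rw [hy, apply_inv']
  have huky : L u (k y) = k x := by
    have h1 := h.equi k hk hke u
    rw [hku] at h1
    have h2 : k * L u = L u * k := by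
      calc k * L u = (k * L u * k⁻¹) * k := by group
        _ = L u * k := by rw [h1]
    have h3 := congrArg (fun f : Perm Q => f y) h2
    simp only [Perm.mul_apply] at h3
    rw [← h3, huy]
  have hky : (L u)⁻¹ (k x) = k y := by rw [Perm.inv_eq_iff_eq, huky]
  obtain ⟨a1, a2, a3⟩ := ha y
  have h4 := hkc _ a1 a2 a3
  -- `a(u, k y) = a(u, y)`
  have h5 : (L (k x))⁻¹ * L u * L (k y) = (L x)⁻¹ * L u * L y := by
    rw [huy] at h4
    have e1 := h.equi k hk hke x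
    have e2 := h.equi k hk hke u
    have e3 := h.equi k hk hke y
    rw [hku] at e2
    rw [← e1, ← e3]
    nth_rewrite 1 [← e2]
    calc (k * L x * k⁻¹)⁻¹ * (k * L u * k⁻¹) * (k * L y * k⁻¹) =
        (k * ((L x)⁻¹ * L u * L y)) * k⁻¹ := by group
      _ = (((L x)⁻¹ * L u * L y) * k) * k⁻¹ := by rw [h4]
      _ = (L x)⁻¹ * L u * L y := by group
  unfold laa
  rw [hky, ← hy]
  calc L u * L (k y) * (L u)⁻¹ = L (k x) * ((L (k x))⁻¹ * L u * L (k y)) * (L u)⁻¹ := by group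
    _ = L (k x) * ((L x)⁻¹ * L u * L y) * (L u)⁻¹ := by rw [h5]
    _ = L (k x) * (L x)⁻¹ * (L u * L y * (L u)⁻¹) := by group

theorem Tx_cen (h : AL0 G L J e) (u : Q) : ∀ g ∈ G, g e = e → g u = u →
    Tx L J u * g = g * Tx L J u := by
  intro g hg hge hgu
  have h1 := h.comL hg hge hgu
  have h2 := h.comR hg hge hgu
  unfold Tx
  calc L u * (Rt L J u)⁻¹ * g = L u * (Rt L J u)⁻¹ * (g * Rt L J u) * (Rt L J u)⁻¹ := by group
    _ = (L u * g) * (Rt L J u)⁻¹ := by rw [h2]; group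
    _ = g * (L u * (Rt L J u)⁻¹) := by rw [← h1]; group

/-- `Nsp` is closed under products, inverses and left division -/
theorem Nsp_iff (h : AL0 G L J e) (s v : Q) :
    Nsp L s v ↔ ∀ w, ((Rt L J (L s w))⁻¹ * Rt L J w * Rt L J s) v = v := by
  constructor
  · intro hv w
    simp only [Perm.mul_apply]
    rw [Perm.inv_eq_iff_eq, h.Rt_app, h.Rt_app, h.Rt_app, ← (show L v * L s = L (L v s) from hv),
      Perm.mul_apply]
  · intro hv
    ext w
    have h1 := hv w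
    simp only [Perm.mul_apply] at h1
    rw [Perm.inv_eq_iff_eq, h.Rt_app, h.Rt_app, h.Rt_app] at h1
    rw [Perm.mul_apply, ← h1]

theorem Nsp_r (h : AL0 G L J e) (s w : Q) :
    ((Rt L J (L s w))⁻¹ * Rt L J w * Rt L J s) ∈ G ∧
    ((Rt L J (L s w))⁻¹ * Rt L J w * Rt L J s) e = e := by
  refine ⟨G.mul_mem (G.mul_mem (G.inv_mem (h.memR _)) (h.memR _)) (h.memR _), ?_⟩
  simp only [Perm.mul_apply]
  rw [h.Rt_e, h.Rt_app, Perm.inv_eq_iff_eq, h.Rt_e]

theorem aut (h : AL0 G L J e) {g : Perm Q} (hg : g ∈ G) (he : g e = e) (x y : Q) :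
    g (L x y) = L (g x) (g y) := by
  have h1 := h.equi g hg he x
  rw [mul_inv_eq_iff_eq_mul] at h1
  have h2 := congrArg (fun p : Perm Q => p y) h1
  simpa using h2

theorem Nsp_mul (h : AL0 G L J e) {s v w : Q} (hv : Nsp L s v) (hw : Nsp L s w) :
    Nsp L s (L v w) := by
  rw [h.Nsp_iff] at hv hw ⊢
  intro y
  obtain ⟨h1, h2⟩ := h.Nsp_r s y
  rw [h.aut h1 h2, hv, hw]

theorem Nsp_inv (h : AL0 G L J e) {s v : Q} (hv : Nsp L s v) : Nsp L s (J v) := by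
  rw [h.Nsp_iff] at hv ⊢
  intro y
  obtain ⟨h1, h2⟩ := h.Nsp_r s y
  exact h.fixJ h1 h2 (hv y)

theorem Nsp_ldiv (h : AL0 G L J e) {s v w : Q} (hv : Nsp L s v) (hw : Nsp L s (L v w)) :
    Nsp L s w := by
  rw [h.Nsp_iff] at hv hw ⊢
  intro y
  obtain ⟨h1, h2⟩ := h.Nsp_r s y
  have h3 := hw y
  rw [h.aut h1 h2, hv] at h3
  exact (L v).injective h3

theorem Nsp_inn (h : AL0 G L J e) {s v : Q} {k : Perm Q} (hk : k ∈ G) (hke : k e = e)
    (hv : Nsp L s v) : Nsp L (k s) (k v) := by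
  unfold Nsp at *
  rw [← h.aut hk hke, ← h.equi k hk hke v, ← h.equi k hk hke s, ← h.equi k hk hke (L v s), ← hv]
  group

/-- the basic identity (N3), and the relation at `c` which gives (N4) -/
theorem N34 (h : AL0 G L J e) (b c : Q) :
    L (L b c) * L ((L (L b c))⁻¹ (L c b)) = L (L c b) ∧
    Nsp L ((L (L b c))⁻¹ (L c b)) (J ((L (L b c))⁻¹ c)) := by
  obtain ⟨x, hx⟩ : ∃ x, x = L b c := ⟨_, rfl⟩
  obtain ⟨x', hx'⟩ : ∃ x', x' = L c b := ⟨_, rfl⟩
  rw [← hx, ← hx']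
  obtain ⟨psi, hpsi⟩ : ∃ psi, psi = L x' * (L x)⁻¹ := ⟨_, rfl⟩
  have hTc : Tx L J c x = x' := by
    unfold Tx
    rw [Perm.mul_apply, hx, hx', ← h.Rt_app c b, inv_apply']
  have hTb : (Tx L J b)⁻¹ x = x' := by
    rw [Perm.inv_eq_iff_eq]
    unfold Tx
    rw [Perm.mul_apply, hx', ← h.Rt_app b c, inv_apply', hx]
  -- (1) at `c` and `b`
  have hc : laa L c x' = psi * laa L c x := by
    have h1 := h.laa_k (h.Tx_mem c) (h.Tx_e c) (h.Tx_x c) (h.Tx_cen c) x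
    rw [hTc] at h1
    rw [h1, hpsi]
  have hb : laa L b x' = psi * laa L b x := by
    have h1 := h.laa_k (u := b) (k := (Tx L J b)⁻¹) (G.inv_mem (h.Tx_mem b))
      (by rw [Perm.inv_eq_iff_eq, h.Tx_e]) (by rw [Perm.inv_eq_iff_eq, h.Tx_x])
      (by
        intro g hg hge hgu
        have h2 := h.Tx_cen b g hg hge hgu
        calc (Tx L J b)⁻¹ * g = (Tx L J b)⁻¹ * (g * Tx L J b) * (Tx L J b)⁻¹ := by group
          _ = g * (Tx L J b)⁻¹ := by rw [← h2]; group) x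
    rw [hTb] at h1
    rw [h1, hpsi]
  have hJJ := h.JJ1
  -- the inner mappings
  have hxx : ∀ y, psi (laa L x x y) = laa L x x' y := by
    intro y
    obtain ⟨k, hk⟩ : ∃ k, k = (Mh L J x' y)⁻¹ * psi * Mh L J x y := ⟨_, rfl⟩
    have hkG : k ∈ G := by
      have h1 : k = J * ((Mh L J x' y * J)⁻¹ * psi * (Mh L J x y * J)) * J := by
        have hJi : J⁻¹ = J := inv_eq_of_mul_eq_one_left hJJ
        rw [hk, mul_inv_rev, hJi]
        calc (Mh L J x' y)⁻¹ * psi * Mh L J x y =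
            1 * (Mh L J x' y)⁻¹ * psi * Mh L J x y * 1 := by group
          _ = (J * J) * (Mh L J x' y)⁻¹ * psi * Mh L J x y * (J * J) := by rw [hJJ]
          _ = J * (J * (Mh L J x' y)⁻¹ * psi * (Mh L J x y * J)) * J := by group
      rw [h1]
      refine h.JG _ (G.mul_mem (G.mul_mem (G.inv_mem (h.Mh_J _ _)) ?_) (h.Mh_J _ _))
      rw [hpsi]
      exact G.mul_mem (h.memL _) (G.inv_mem (h.memL _))
    have hfix : ∀ p, laa L p x' = psi * laa L p x → k p = p := by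
      intro p hp
      rw [hk]
      simp only [Perm.mul_apply]
      rw [Perm.inv_eq_iff_eq, h.Mh_app, h.Mh_app, hp, Perm.mul_apply]
    have hke : k e = e := by
      apply hfix
      rw [h.laa_e, h.laa_e, hpsi]; group
    have hkx : k x = x := by
      rw [hx, h.aut hkG hke, hfix b hb, hfix c hc]
    rw [hk] at hkx
    simp only [Perm.mul_apply] at hkx
    rw [Perm.inv_eq_iff_eq, h.Mh_app, h.Mh_app] at hkx
    exact hkx
  have hpsi2 : psi = laa L x x' := by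
    ext y
    have h1 := hxx y
    rw [h.laa_self, Perm.one_apply] at h1
    exact h1
  have hN3 : L x * L ((L x)⁻¹ x') = L x' := by
    have h1 : L x' * (L x)⁻¹ = L x * L ((L x)⁻¹ x') * (L x)⁻¹ := by
      rw [← hpsi, hpsi2]; rfl
    exact (mul_right_cancel h1).symm
  refine ⟨hN3, ?_⟩
  obtain ⟨s, hs⟩ : ∃ s, s = (L x)⁻¹ x' := ⟨_, rfl⟩
  obtain ⟨q, hq⟩ : ∃ q, q = (L x)⁻¹ c := ⟨_, rfl⟩
  rw [← hs, ← hq]
  have h1 := congrArg (fun f : Perm Q => (L x)⁻¹ * f * L x) hc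
  have h2 := h.laa_conj (G.inv_mem (h.memL x)) c x'
  have h3 := h.laa_conj (G.inv_mem (h.memL x)) c x
  rw [inv_inv, ← hq, ← hs] at h2
  have h4 : (L x)⁻¹ x = e := by rw [Perm.inv_eq_iff_eq, h.Le]
  rw [inv_inv, ← hq, h4] at h3
  have h5 : (L x)⁻¹ * (psi * laa L c x) * L x =
      ((L x)⁻¹ * psi * L x) * ((L x)⁻¹ * laa L c x * L x) := by group
  have h6 : (L x)⁻¹ * psi * L x = L s := by
    rw [hpsi2, hs]; unfold laa; group
  change (L x)⁻¹ * laa L c x' * L x = (L x)⁻¹ * (psi * laa L c x) * L x at h1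
  rw [h2, h5, h6, h3] at h1
  -- now conjugate by `L v`, `v = J q`
  have h7 := h.laa_conj (h.memL (J q)) q s
  have h8 := h.laa_conj (h.memL (J q)) q e
  have h9 : L (J q) q = e := h.JL q
  rw [h9, h.laa_e] at h7
  rw [h9, h.Le, h.laa_e] at h8
  unfold Nsp
  have h10 : laa L q e = L (J q) := by
    calc laa L q e = (L (J q))⁻¹ * (L (J q) * laa L q e * (L (J q))⁻¹) * L (J q) := by group
      _ = L (J q) := by rw [h8]; group
  rw [← h7, h1, h10]
  group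

/-- (N3) -/
theorem N3 (h : AL0 G L J e) (u x : Q) : Nsp L ((L x)⁻¹ (Tx L J u x)) x := by
  have h1 := (h.N34 ((Rt L J u)⁻¹ x) u).1
  have h2 : L ((Rt L J u)⁻¹ x) u = x := by rw [← h.Rt_app, apply_inv']
  have h3 : L u ((Rt L J u)⁻¹ x) = Tx L J u x := by unfold Tx; rw [Perm.mul_apply]
  rw [h2, h3] at h1
  unfold Nsp
  rw [h1, apply_inv']

/-- (N4) -/
theorem N4 (h : AL0 G L J e) (u x : Q) : Nsp L ((L x)⁻¹ (Tx L J u x)) u := by
  have h1 := (h.N34 ((Rt L J u)⁻¹ x) u).2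
  have h2 : L ((Rt L J u)⁻¹ x) u = x := by rw [← h.Rt_app, apply_inv']
  have h3 : L u ((Rt L J u)⁻¹ x) = Tx L J u x := by unfold Tx; rw [Perm.mul_apply]
  rw [h2, h3] at h1
  have h4 := h.Nsp_inv h1
  rw [h.JJ] at h4
  have h5 := h.Nsp_mul (h.N3 u x) h4
  rwa [apply_inv'] at h5

end AL0

end ALoop
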